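import Pool.Agent.Q127.ET.Spec

/-!
# Project ET, job ET3: sums of a multiplicative majorant over powerful numbers
-/

set_option autoImplicit false

open Finset

namespace Pool.Agent.Q254.ET

open Pool.Agent.Q127.ET

/-- sums of a multiplicative function are at most the Euler product -/
theorem claimA (T : Finset ℕ) (K : ℕ) (g : ℕ → ℕ → ℝ) (hg : ∀ p k, 0 ≤ g p k) (S : Finset ℕ)
    (hS : ∀ n ∈ S, n ≠ 0 ∧ n.primeFactors ⊆ T ∧ ∀ p, n.factorization p < K) :
    ∑ n ∈ S, ∏ p ∈ T, g p (n.factorization p) ≤ ∏ p ∈ T, ∑ k ∈ range K, g p k := by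
  classical
  rw [Finset.prod_sum]
  have hinj : Set.InjOn (fun n : ℕ => (fun p (_ : p ∈ T) => n.factorization p : (a : ℕ) → a ∈ T → ℕ)) (S : Set ℕ) := by
    intro a ha b hb hab
    have ha' := hS a ha
    have hb' := hS b hb
    apply Nat.eq_of_factorization_eq ha'.1 hb'.1
    intro p
    by_cases hp : p ∈ T
    · have := congrFun (congrFun hab p) hp
      exact this
    · have h1 : p ∉ a.primeFactors := fun h => hp (ha'.2.1 h)
      have h2 : p ∉ b.primeFactors := fun h => hp (hb'.2.1 h)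
      rw [← Nat.support_factorization, Finsupp.notMem_support_iff] at h1 h2
      rw [h1, h2]
  have hsub : S.image (fun n : ℕ => (fun p (_ : p ∈ T) => n.factorization p : (a : ℕ) → a ∈ T → ℕ)) ⊆
      T.pi (fun _ => range K) := by
    intro f hf
    rw [Finset.mem_image] at hf
    obtain ⟨n, hn, rfl⟩ := hf
    rw [Finset.mem_pi]
    intro p _
    exact Finset.mem_range.2 ((hS n hn).2.2 p)
  calc ∑ n ∈ S, ∏ p ∈ T, g p (n.factorization p)
      = ∑ f ∈ S.image (fun n : ℕ => (fun p (_ : p ∈ T) => n.factorization p : (a : ℕ) → a ∈ T → ℕ)),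
          ∏ x ∈ T.attach, g x.1 (f x.1 x.2) := by
        rw [Finset.sum_image hinj]
        refine Finset.sum_congr rfl fun n _ => ?_
        rw [← Finset.prod_attach T]
    _ ≤ _ := by
        apply Finset.sum_le_sum_of_subset_of_nonneg hsub
        intro f _ _
        exact Finset.prod_nonneg fun x _ => hg _ _

/-- local weights -/
noncomputable def gw (m : ℕ) (blk : Set ℕ) (σ : ℝ) (p k : ℕ) : ℝ :=
  if k = 0 then 1 else if k = 1 then 0 else Gp m blk σ p k

theorem Gp_nonneg (m : ℕ) (blk : Set ℕ) (σ : ℝ) (p k : ℕ) : 0 ≤ Gp m blk σ p k := by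
  classical
  unfold Gp
  apply mul_nonneg
  · apply add_nonneg
    · split_ifs <;> norm_num
    · apply mul_nonneg
      · apply Set.indicator_nonneg
        intro x _
        norm_num
      · positivity
  · positivity

theorem gw_nonneg (m : ℕ) (blk : Set ℕ) (σ : ℝ) (p k : ℕ) : 0 ≤ gw m blk σ p k := by
  unfold gw
  split_ifs
  · norm_num
  · norm_num
  · exact Gp_nonneg m blk σ p k

theorem Gf_eq (m : ℕ) (blk : Set ℕ) (σ : ℝ) (n : ℕ) (hn : n ≠ 0) (T : Finset ℕ) (hT : n.primeFactors ⊆ T) :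
    Gf m blk σ n = ∏ p ∈ T, gw m blk σ p (n.factorization p) := by
  unfold Gf
  rw [if_neg hn]
  rw [← Finset.prod_subset hT]
  · refine Finset.prod_congr rfl fun p hp => ?_
    have h1 : n.factorization p ≠ 0 := by
      rw [← Nat.support_factorization, Finsupp.mem_support_iff] at hp
      exact hp
    unfold gw
    rw [if_neg h1]
  · intro p _ hp
    rw [← Nat.support_factorization, Finsupp.notMem_support_iff] at hp
    unfold gw
    rw [if_pos hp]

theorem Gf_nonneg (m : ℕ) (blk : Set ℕ) (σ : ℝ) (n : ℕ) : 0 ≤ Gf m blk σ n := by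
  by_cases hn : n = 0
  · unfold Gf; rw [if_pos hn]
  · rw [Gf_eq m blk σ n hn n.primeFactors subset_rfl]
    exact Finset.prod_nonneg fun p _ => gw_nonneg _ _ _ _ _

/-- the sum of the local weights with exponent at least 2 -/
noncomputable def xx (m : ℕ) (blk : Set ℕ) (σ : ℝ) (K p : ℕ) : ℝ := ∑ k ∈ Ico 2 K, Gp m blk σ p k

theorem xx_nonneg (m : ℕ) (blk : Set ℕ) (σ : ℝ) (K p : ℕ) : 0 ≤ xx m blk σ K p :=
  Finset.sum_nonneg fun k _ => Gp_nonneg m blk σ p k

theorem sum_gw (m : ℕ) (blk : Set ℕ) (σ : ℝ) (K p : ℕ) (hK : 2 ≤ K) :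
    ∑ k ∈ range K, gw m blk σ p k = 1 + xx m blk σ K p := by
  rw [Finset.range_eq_Ico, ← Finset.sum_Ico_consecutive _ (Nat.zero_le 2) hK]
  congr 1
  · rw [Finset.sum_Ico_eq_sum_range]
    simp [Finset.sum_range_succ, gw]
  · unfold xx
    refine Finset.sum_congr rfl fun k hk => ?_
    rw [Finset.mem_Ico] at hk
    unfold gw
    rw [if_neg (by omega), if_neg (by omega)]

/-- numerical facts -/
theorem two_rpow : (2 : ℝ) ^ (-(4 / 5 : ℝ)) ≤ 3 / 5 := by
  have h : ((2 : ℝ) ^ (-(4 / 5 : ℝ))) ^ 5 ≤ (3 / 5 : ℝ) ^ 5 := by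
    rw [← Real.rpow_natCast, ← Real.rpow_mul (by norm_num)]
    norm_num
  exact le_of_pow_le_pow_left₀ (by norm_num) (by norm_num) h

theorem p_rpow (p : ℕ) (hp : 2 ≤ p) : (p : ℝ) ^ (-(4 / 5 : ℝ)) ≤ 3 / 5 := by
  refine le_trans ?_ two_rpow
  apply Real.rpow_le_rpow_of_nonpos (by norm_num)
  · exact_mod_cast hp
  · norm_num

theorem big_rpow (p : ℕ) (hp : 128 ≤ p) : 16 * (p : ℝ) ^ (-(4 / 5 : ℝ)) ≤ 1 / 2 := by
  have h1 : (p : ℝ) ^ (-(4 / 5 : ℝ)) ≤ (128 : ℝ) ^ (-(4 / 5 : ℝ)) := by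
    apply Real.rpow_le_rpow_of_nonpos (by norm_num)
    · exact_mod_cast hp
    · norm_num
  have h2 : (128 : ℝ) ^ (-(4 / 5 : ℝ)) ≤ 1 / 32 := by
    have h : ((128 : ℝ) ^ (-(4 / 5 : ℝ))) ^ 5 ≤ (1 / 32 : ℝ) ^ 5 := by
      rw [← Real.rpow_natCast, ← Real.rpow_mul (by norm_num)]
      norm_num
    exact le_of_pow_le_pow_left₀ (by norm_num) (by norm_num) h
  linarith

theorem xx_le (m : ℕ) (blk : Set ℕ) (σ : ℝ) (hσ : 4 / 5 ≤ σ) (K p : ℕ) (hp : 2 ≤ p) (hb : p ∈ blk → 128 ≤ p) :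
    xx m blk σ K p ≤ 5 / 2 * (1 / 2) ^ m * (p : ℝ) ^ (-(8 / 5 : ℝ)) +
      blk.indicator (fun _ => (1 : ℝ)) p * (512 * (p : ℝ) ^ (-(8 / 5 : ℝ))) := by
  classical
  have hp0 : (0 : ℝ) < p := by positivity
  have hp1 : (1 : ℝ) ≤ p := by exact_mod_cast (by omega : 1 ≤ p)
  set r : ℝ := (p : ℝ) ^ (-(4 / 5 : ℝ)) with hr
  have hr0 : 0 ≤ r := by positivity
  have hr1 : r ≤ 3 / 5 := p_rpow p hp
  have hrk : ∀ k : ℕ, (p : ℝ) ^ (-(σ * k)) ≤ r ^ k := by
    intro k
    rw [hr, ← Real.rpow_natCast, ← Real.rpow_mul hp0.le]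
    apply Real.rpow_le_rpow_of_exponent_le hp1
    have : (0 : ℝ) ≤ k := Nat.cast_nonneg k
    nlinarith
  have hr2 : r ^ 2 = (p : ℝ) ^ (-(8 / 5 : ℝ)) := by
    rw [hr, ← Real.rpow_natCast, ← Real.rpow_mul hp0.le]
    norm_num
  -- the two parts
  have hsplit : xx m blk σ K p ≤ ∑ k ∈ Ico 2 K, (if (4 * m + 3) ∣ k then r ^ k else 0) +
      blk.indicator (fun _ => (1 : ℝ)) p * ∑ k ∈ Ico 2 K, (16 * r) ^ k := by
    unfold xx
    rw [Finset.mul_sum, ← Finset.sum_add_distrib]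
    apply Finset.sum_le_sum
    intro k _
    unfold Gp
    have hI : 0 ≤ blk.indicator (fun _ => (1 : ℝ)) p := Set.indicator_nonneg (fun x _ => by norm_num) p
    calc ((if (4 * m + 3) ∣ k then (1 : ℝ) else 0) + blk.indicator (fun _ => (1 : ℝ)) p * 16 ^ k) * (p : ℝ) ^ (-(σ * k))
        ≤ ((if (4 * m + 3) ∣ k then (1 : ℝ) else 0) + blk.indicator (fun _ => (1 : ℝ)) p * 16 ^ k) * r ^ k := by
          apply mul_le_mul_of_nonneg_left (hrk k)
          apply add_nonneg
          · split_ifs <;> norm_num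
          · positivity
      _ = _ := by
          rw [mul_pow]
          split_ifs <;> ring
  have h1 : ∑ k ∈ Ico 2 K, (if (4 * m + 3) ∣ k then r ^ k else 0) ≤ 5 / 2 * (1 / 2) ^ m * (p : ℝ) ^ (-(8 / 5 : ℝ)) := by
    have ha : ∑ k ∈ Ico 2 K, (if (4 * m + 3) ∣ k then r ^ k else 0) ≤ ∑ k ∈ Ico (4 * m + 3) K, r ^ k := by
      rw [← Finset.sum_filter]
      apply Finset.sum_le_sum_of_subset_of_nonneg
      · intro k hk
        rw [Finset.mem_filter, Finset.mem_Ico] at hk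
        rw [Finset.mem_Ico]
        refine ⟨Nat.le_of_dvd (by omega) hk.2, hk.1.2⟩
      · intro k _ _
        positivity
    have hb' := geom_sum_Ico_le_of_lt_one (m := 4 * m + 3) (n := K) hr0 (by linarith)
    have hc : r ^ (4 * m + 3) ≤ (1 / 2) ^ m * r ^ 2 := by
      have : r ^ (4 * m + 3) = (r ^ 4) ^ m * (r * r ^ 2) := by
        rw [← pow_mul]; ring
      rw [this]
      have h4 : r ^ 4 ≤ 1 / 2 := by
        calc r ^ 4 ≤ (3 / 5) ^ 4 := pow_le_pow_left₀ hr0 hr1 4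
          _ ≤ 1 / 2 := by norm_num
      have h5 : (r ^ 4) ^ m ≤ (1 / 2) ^ m := pow_le_pow_left₀ (by positivity) h4 m
      have h6 : r * r ^ 2 ≤ r ^ 2 := by nlinarith [sq_nonneg r]
      apply mul_le_mul h5 h6 (by positivity) (by positivity)
    have hd : r ^ (4 * m + 3) / (1 - r) ≤ 5 / 2 * r ^ (4 * m + 3) := by
      rw [div_le_iff₀ (by linarith)]
      have : 0 ≤ r ^ (4 * m + 3) := by positivity
      nlinarith
    rw [← hr2]
    nlinarith
  have h2 : blk.indicator (fun _ => (1 : ℝ)) p * ∑ k ∈ Ico 2 K, (16 * r) ^ k ≤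
      blk.indicator (fun _ => (1 : ℝ)) p * (512 * (p : ℝ) ^ (-(8 / 5 : ℝ))) := by
    by_cases hpb : p ∈ blk
    · have hq : 16 * r ≤ 1 / 2 := big_rpow p (hb hpb)
      rw [Set.indicator_of_mem hpb, one_mul, one_mul]
      have hb' := geom_sum_Ico_le_of_lt_one (m := 2) (n := K) (x := 16 * r) (by positivity) (by linarith)
      refine hb'.trans ?_
      rw [div_le_iff₀ (by linarith), ← hr2]
      nlinarith [sq_nonneg r]
    · rw [Set.indicator_of_notMem hpb, zero_mul, zero_mul]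
  linarith

theorem summ : Summable (fun n : ℕ => (n : ℝ) ^ (-(8 / 5 : ℝ))) :=
  Real.summable_nat_rpow.2 (by norm_num)

noncomputable def CC : ℝ := ∑' n : ℕ, (n : ℝ) ^ (-(8 / 5 : ℝ))

theorem CC_nonneg : 0 ≤ CC := tsum_nonneg fun n => by positivity

theorem sum_le_CC (T : Finset ℕ) : ∑ p ∈ T, (p : ℝ) ^ (-(8 / 5 : ℝ)) ≤ CC :=
  summ.sum_le_tsum T fun n _ => by positivity

theorem tail (δ : ℝ) (hδ : 0 < δ) : ∃ P₀ : ℕ, ∀ T : Finset ℕ, (∀ p ∈ T, P₀ ≤ p) →
    ∑ p ∈ T, (p : ℝ) ^ (-(8 / 5 : ℝ)) ≤ δ := by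
  obtain ⟨s, hs⟩ := summable_iff_vanishing_norm.1 summ δ hδ
  refine ⟨s.sup id + 1, fun T hT => ?_⟩
  have hd : Disjoint T s := by
    rw [Finset.disjoint_left]
    intro p hp hps
    have h1 := hT p hp
    have h2 : p ≤ s.sup id := Finset.le_sup (f := id) hps
    omega
  have := hs T hd
  rw [Real.norm_eq_abs] at this
  exact (le_abs_self _).trans this.le

/-- total of the local weights -/
theorem sum_xx_le (m : ℕ) (blk : Set ℕ) (σ : ℝ) (hσ : 4 / 5 ≤ σ) (K : ℕ) (hb : ∀ p ∈ blk, 128 ≤ p) (δ : ℝ)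
    (hδ : ∀ T : Finset ℕ, (∀ p ∈ T, p ∈ blk) → ∑ p ∈ T, (p : ℝ) ^ (-(8 / 5 : ℝ)) ≤ δ) (T : Finset ℕ)
    (hT : ∀ p ∈ T, 2 ≤ p) : ∑ p ∈ T, xx m blk σ K p ≤ 5 / 2 * (1 / 2) ^ m * CC + 512 * δ := by
  classical
  calc ∑ p ∈ T, xx m blk σ K p ≤ ∑ p ∈ T, (5 / 2 * (1 / 2) ^ m * (p : ℝ) ^ (-(8 / 5 : ℝ)) +
      blk.indicator (fun _ => (1 : ℝ)) p * (512 * (p : ℝ) ^ (-(8 / 5 : ℝ)))) :=
        Finset.sum_le_sum fun p hp => xx_le m blk σ hσ K p (hT p hp) (hb p)
    _ = 5 / 2 * (1 / 2) ^ m * ∑ p ∈ T, (p : ℝ) ^ (-(8 / 5 : ℝ)) +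
        512 * ∑ p ∈ T.filter (· ∈ blk), (p : ℝ) ^ (-(8 / 5 : ℝ)) := by
        rw [Finset.sum_add_distrib, ← Finset.mul_sum, Finset.sum_filter, Finset.mul_sum (s := T) (a := 512)]
        congr 1
        refine Finset.sum_congr rfl fun p _ => ?_
        by_cases hpb : p ∈ blk
        · rw [Set.indicator_of_mem hpb, if_pos hpb, one_mul]
        · rw [Set.indicator_of_notMem hpb, if_neg hpb, zero_mul, mul_zero]
    _ ≤ _ := by
        have h1 := sum_le_CC T
        have h2 := hδ (T.filter (· ∈ blk)) (fun p hp => (Finset.mem_filter.1 hp).2)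
        have h3 : (0 : ℝ) ≤ 5 / 2 * (1 / 2) ^ m := by positivity
        nlinarith [mul_le_mul_of_nonneg_left h1 h3]

theorem prod_le_exp (T : Finset ℕ) (x : ℕ → ℝ) (hx : ∀ p, 0 ≤ x p) :
    ∏ p ∈ T, (1 + x p) ≤ Real.exp (∑ p ∈ T, x p) := by
  rw [Real.exp_sum]
  apply Finset.prod_le_prod
  · intro p _
    have := hx p
    linarith
  · intro p _
    have := Real.add_one_le_exp (x p)
    linarith

theorem fact_lt (S : Finset ℕ) : ∃ K : ℕ, 2 ≤ K ∧ ∀ n ∈ S, ∀ p, n.factorization p < K := by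
  refine ⟨S.sup id + 2, by omega, fun n hn p => ?_⟩
  have h1 : n.factorization p ≤ n := by
    by_cases hn0 : n = 0
    · simp [hn0]
    · exact (Nat.factorization_lt p hn0).le
  have h2 : n ≤ S.sup id := Finset.le_sup (f := id) hn
  omega

theorem pow1 : S_Pow1 := by
  classical
  intro ε hε
  set L : ℝ := Real.log (1 + ε) with hL
  have hL0 : 0 < L := Real.log_pos (by linarith)
  -- choose m₀
  have hlim : Filter.Tendsto (fun m : ℕ => 5 / 2 * (1 / 2 : ℝ) ^ m * CC) Filter.atTop (nhds 0) := by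
    have h := (tendsto_pow_atTop_nhds_zero_of_lt_one (by norm_num : (0 : ℝ) ≤ 1 / 2) (by norm_num)).const_mul (5 / 2)
    have h' := h.mul_const CC
    simpa using h'
  have hev := hlim.eventually (eventually_le_nhds (show (0 : ℝ) < L / 2 by linarith))
  obtain ⟨m₀, hm₀⟩ := Filter.eventually_atTop.1 hev
  refine ⟨m₀, fun m hm => ?_⟩
  obtain ⟨P₁, hP₁⟩ := tail (L / 1024) (by linarith)
  refine ⟨max P₁ 128, fun blk hblk σ hσ S hS => ?_⟩
  obtain ⟨K, hK2, hK⟩ := fact_lt (insert 1 S)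
  set T : Finset ℕ := (insert 1 S).biUnion Nat.primeFactors with hT
  have hT2 : ∀ p ∈ T, 2 ≤ p := by
    intro p hp
    rw [hT, Finset.mem_biUnion] at hp
    obtain ⟨n, _, hpn⟩ := hp
    exact (Nat.prime_of_mem_primeFactors hpn).two_le
  have hsub : ∀ n ∈ insert 1 S, n.primeFactors ⊆ T := fun n hn => Finset.subset_biUnion_of_mem _ hn
  have hne : ∀ n ∈ insert 1 S, n ≠ 0 := by
    intro n hn
    rw [Finset.mem_insert] at hn
    rcases hn with rfl | hn
    · norm_num
    · have := hS n hn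
      omega
  have hA := claimA T K (gw m blk σ) (gw_nonneg m blk σ) (insert 1 S)
    (fun n hn => ⟨hne n hn, hsub n hn, hK n hn⟩)
  have h1S : 1 ∉ S := fun h => by have := hS 1 h; omega
  have hB : ∑ n ∈ insert 1 S, ∏ p ∈ T, gw m blk σ p (n.factorization p) = 1 + ∑ n ∈ S, Gf m blk σ n := by
    have : ∀ n ∈ insert 1 S, ∏ p ∈ T, gw m blk σ p (n.factorization p) = Gf m blk σ n :=
      fun n hn => (Gf_eq m blk σ n (hne n hn) T (hsub n hn)).symm
    rw [Finset.sum_congr rfl this, Finset.sum_insert h1S]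
    congr 1
    simp [Gf]
  have hC : ∏ p ∈ T, ∑ k ∈ range K, gw m blk σ p k ≤ Real.exp L := by
    rw [Finset.prod_congr rfl (fun p _ => sum_gw m blk σ K p hK2)]
    refine (prod_le_exp T _ (xx_nonneg m blk σ K)).trans ?_
    apply Real.exp_le_exp.2
    have := sum_xx_le m blk σ hσ K (fun p hp => le_trans (le_max_right _ _) (hblk p hp)) (L / 1024)
      (fun U hU => hP₁ U (fun p hp => le_trans (le_max_left _ _) (hblk p (hU p hp)))) T hT2
    have := hm₀ m hm
    linarith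
  rw [hL, Real.exp_log (by linarith)] at hC
  linarith

theorem pow2 : S_Pow2 := by
  classical
  intro m ε hε
  set B : ℝ := 5 / 2 * CC + 1 with hB
  set δ : ℝ := min (1 / 512) (ε * Real.exp (-B) / 515) with hδ
  have hδ0 : 0 < δ := by
    apply lt_min (by norm_num)
    positivity
  obtain ⟨P₁, hP₁⟩ := tail δ hδ0
  refine ⟨max P₁ 128, fun blk hblk σ hσ S hS => ?_⟩
  obtain ⟨K, hK2, hK⟩ := fact_lt S
  set T : Finset ℕ := S.biUnion Nat.primeFactors with hT
  have hT2 : ∀ p ∈ T, 2 ≤ p := by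
    intro p hp
    rw [hT, Finset.mem_biUnion] at hp
    obtain ⟨n, _, hpn⟩ := hp
    exact (Nat.prime_of_mem_primeFactors hpn).two_le
  have hsub : ∀ n ∈ S, n.primeFactors ⊆ T := fun n hn => Finset.subset_biUnion_of_mem _ hn
  have hb128 : ∀ p ∈ blk, 128 ≤ p := fun p hp => le_trans (le_max_right _ _) (hblk p hp)
  have htail : ∀ U : Finset ℕ, (∀ p ∈ U, p ∈ blk) → ∑ p ∈ U, (p : ℝ) ^ (-(8 / 5 : ℝ)) ≤ δ :=
    fun U hU => hP₁ U (fun p hp => le_trans (le_max_left _ _) (hblk p (hU p hp)))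
  have hX : ∑ p ∈ T, xx m blk σ K p ≤ B := by
    have h := sum_xx_le m blk σ hσ K hb128 δ htail T hT2
    have h1 : (1 / 2 : ℝ) ^ m ≤ 1 := pow_le_one₀ (by norm_num) (by norm_num)
    have h2 : δ ≤ 1 / 512 := min_le_left _ _
    have h3 := CC_nonneg
    have h4 : 5 / 2 * (1 / 2 : ℝ) ^ m * CC ≤ 5 / 2 * CC := by nlinarith
    rw [hB]
    linarith
  -- for one prime q
  have hq : ∀ q ∈ T.filter (· ∈ blk), ∑ n ∈ S.filter (fun n => q ∈ n.primeFactors), Gf m blk σ n ≤
      xx m blk σ K q * Real.exp B := by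
    intro q hq
    have hqT : q ∈ T := (Finset.mem_filter.1 hq).1
    set g' : ℕ → ℕ → ℝ := fun p k => if p = q ∧ k = 0 then 0 else gw m blk σ p k with hg'
    have hg0 : ∀ p k, 0 ≤ g' p k := by
      intro p k
      rw [hg']
      dsimp only
      split_ifs
      · exact le_rfl
      · exact gw_nonneg _ _ _ _ _
    have hA := claimA T K g' hg0 (S.filter (fun n => q ∈ n.primeFactors))
      (fun n hn => ⟨(hS n (Finset.mem_filter.1 hn).1).1, hsub n (Finset.mem_filter.1 hn).1,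
        hK n (Finset.mem_filter.1 hn).1⟩)
    have hL : ∑ n ∈ S.filter (fun n => q ∈ n.primeFactors), ∏ p ∈ T, g' p (n.factorization p) =
        ∑ n ∈ S.filter (fun n => q ∈ n.primeFactors), Gf m blk σ n := by
      refine Finset.sum_congr rfl fun n hn => ?_
      rw [Finset.mem_filter] at hn
      rw [Gf_eq m blk σ n (hS n hn.1).1 T (hsub n hn.1)]
      refine Finset.prod_congr rfl fun p _ => ?_
      rw [hg']
      dsimp only
      rw [if_neg]
      rintro ⟨rfl, h0⟩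
      have := hn.2
      rw [← Nat.support_factorization, Finsupp.mem_support_iff] at this
      exact this h0
    rw [hL] at hA
    refine hA.trans ?_
    rw [← Finset.mul_prod_erase T _ hqT]
    have hR1 : ∑ k ∈ range K, g' q k = xx m blk σ K q := by
      have h := sum_gw m blk σ K q hK2
      have h0 : 0 ∈ range K := Finset.mem_range.2 (by omega)
      rw [← Finset.add_sum_erase _ _ h0] at h ⊢
      have e1 : gw m blk σ q 0 = 1 := by simp [gw]
      have e2 : g' q 0 = 0 := by simp [hg']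
      have e3 : ∑ k ∈ (range K).erase 0, g' q k = ∑ k ∈ (range K).erase 0, gw m blk σ q k := by
        refine Finset.sum_congr rfl fun k hk => ?_
        rw [hg']
        dsimp only
        rw [if_neg]
        rintro ⟨_, h⟩
        exact (Finset.mem_erase.1 hk).1 h
      rw [e2, e3]
      rw [e1] at h
      linarith
    have hR2 : ∏ p ∈ T.erase q, ∑ k ∈ range K, g' p k ≤ Real.exp B := by
      have : ∀ p ∈ T.erase q, ∑ k ∈ range K, g' p k = 1 + xx m blk σ K p := by
        intro p hp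
        rw [← sum_gw m blk σ K p hK2]
        refine Finset.sum_congr rfl fun k _ => ?_
        rw [hg']
        dsimp only
        rw [if_neg]
        rintro ⟨h, _⟩
        exact (Finset.mem_erase.1 hp).1 h
      rw [Finset.prod_congr rfl this]
      refine (prod_le_exp _ _ (xx_nonneg m blk σ K)).trans ?_
      apply Real.exp_le_exp.2
      refine le_trans ?_ hX
      apply Finset.sum_le_sum_of_subset_of_nonneg (Finset.erase_subset _ _)
      intro p _ _
      exact xx_nonneg _ _ _ _ _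
    rw [hR1]
    exact mul_le_mul_of_nonneg_left hR2 (xx_nonneg _ _ _ _ _)
  have hcover : ∑ n ∈ S, Gf m blk σ n ≤ ∑ q ∈ T.filter (· ∈ blk), ∑ n ∈ S.filter (fun n => q ∈ n.primeFactors), Gf m blk σ n := by
    have : ∀ q, ∑ n ∈ S.filter (fun n => q ∈ n.primeFactors), Gf m blk σ n =
        ∑ n ∈ S, if q ∈ n.primeFactors then Gf m blk σ n else 0 := fun q => Finset.sum_filter _ _
    simp_rw [this]
    rw [Finset.sum_comm]
    apply Finset.sum_le_sum
    intro n hn
    obtain ⟨hn0, q, hqn, hqb⟩ := hS n hn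
    have hqm : q ∈ T.filter (· ∈ blk) := Finset.mem_filter.2 ⟨hsub n hn hqn, hqb⟩
    calc Gf m blk σ n = if q ∈ n.primeFactors then Gf m blk σ n else 0 := by rw [if_pos hqn]
      _ ≤ _ := Finset.single_le_sum (f := fun q => if q ∈ n.primeFactors then Gf m blk σ n else 0)
        (fun r _ => by
          split_ifs
          · exact Gf_nonneg _ _ _ _
          · exact le_rfl) hqm
  refine hcover.trans ((Finset.sum_le_sum hq).trans ?_)
  rw [← Finset.sum_mul]
  have hXb : ∑ q ∈ T.filter (· ∈ blk), xx m blk σ K q ≤ 515 * δ := by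
    calc ∑ q ∈ T.filter (· ∈ blk), xx m blk σ K q
        ≤ ∑ q ∈ T.filter (· ∈ blk), 515 * (q : ℝ) ^ (-(8 / 5 : ℝ)) := by
          apply Finset.sum_le_sum
          intro q hq
          rw [Finset.mem_filter] at hq
          have h := xx_le m blk σ hσ K q (hT2 q hq.1) (hb128 q)
          rw [Set.indicator_of_mem hq.2, one_mul] at h
          have h1 : (1 / 2 : ℝ) ^ m ≤ 1 := pow_le_one₀ (by norm_num) (by norm_num)
          have h2 : (0 : ℝ) ≤ (q : ℝ) ^ (-(8 / 5 : ℝ)) := by positivity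
          nlinarith
      _ = 515 * ∑ q ∈ T.filter (· ∈ blk), (q : ℝ) ^ (-(8 / 5 : ℝ)) := by rw [Finset.mul_sum]
      _ ≤ 515 * δ := by
          have := htail (T.filter (· ∈ blk)) (fun p hp => (Finset.mem_filter.1 hp).2)
          linarith
  have hδ2 : δ ≤ ε * Real.exp (-B) / 515 := min_le_right _ _
  have hE : Real.exp (-B) * Real.exp B = 1 := by rw [← Real.exp_add]; simp
  have hEB : 0 < Real.exp B := Real.exp_pos B
  calc (∑ q ∈ T.filter (· ∈ blk), xx m blk σ K q) * Real.exp B ≤ (515 * δ) * Real.exp B :=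
        mul_le_mul_of_nonneg_right hXb hEB.le
    _ ≤ (515 * (ε * Real.exp (-B) / 515)) * Real.exp B := by
        apply mul_le_mul_of_nonneg_right _ hEB.le
        linarith
    _ = ε * (Real.exp (-B) * Real.exp B) := by ring
    _ = ε := by rw [hE, mul_one]

end Pool.Agent.Q254.ET
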